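import Pool.Agent.TH981.AMZ.Grow

/-!
# Growth of the spaces of alternating multiple zeta values

`Z 2 w` is the `ℚ`-subspace of `ℂ` spanned by the alternating multiple zeta values of weight `w`
(definitions `liTrunc`, `Adm`, `Z` in `Pool.Agent.TH981.AMZ.Defs`). Unconditionally, for every
weight `w ≥ 1`:

* `dim Z 2 w ≥ ⌊w / 2⌋ + 1`,
* `dim Z 2 w ≤ dim Z 2 (w + 1)`,
* `dim Z 2 w + 1 ≤ dim Z 2 (w + 2)`.

Proof: the spaces multiply (stuffle product of the truncated sums; all admissible series converge),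
so `log 2 ∈ Z 2 1` and `π ^ 2 ∈ Z 2 2` act on them, and `log 2 / π` is transcendental (Baker's
theorem, library `Pool.Agent.H297R2`), so no finite-dimensional `Z 2 w` is stable under
`(log 2 / π) ^ 2`.
-/

set_option autoImplicit false

open Pool.Agent.TH981.AMZ

theorem Pool.Agent.Results.MP_528be1_nt.AlternatingGrowth.result :
    ∀ w : ℕ, 1 ≤ w →
      FiniteDimensional ℚ (Z 2 w) ∧
      w / 2 + 1 ≤ Module.finrank ℚ (Z 2 w) ∧
      Module.finrank ℚ (Z 2 w) ≤ Module.finrank ℚ (Z 2 (w + 1)) ∧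
      Module.finrank ℚ (Z 2 w) + 1 ≤ Module.finrank ℚ (Z 2 (w + 2)) :=
  Pool.Agent.TH981.AMZ.growth
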