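import Mathlib
import Pool.Agent.TH981.AMZ.CZeta

/-!
# Growth of the dimensions of the spaces of multiple Clausen values

`C w` is the `ℚ`-subspace of `ℂ` spanned by the multiple Clausen values of weight `w`
(definitions `liTrunc`, `om`, `C` in `Pool.Agent.TH981.AMZ.Defs` and
`Pool.Agent.TH981.AMZ.CDefs`). The sequence `dim C w` starts with `1, 2` and does not decrease.
Either it grows at least linearly, or all the multiple Clausen values are algebraic multiples of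
the power of `π` of their weight; in the second case it tends to infinity or, from some weight on,
`C w = (π i) ^ w K` with a fixed number field `K`, which then contains all the numbers
`ζ (2 k + 1) / (π i) ^ (2 k + 1)`.
-/

set_option autoImplicit false

open Filter Topology

namespace Pool.Agent.Results.MP_528be1_nt.ClausenGrowth

open Pool.Agent.TH981.AMZ

theorem D_iff (w : ℕ) (y : ℂ) : y / ((Real.pi : ℂ) * Complex.I) ^ w ∈ D w ↔ y ∈ C w := by
  have hp : ((Real.pi : ℂ) * Complex.I) ^ w ≠ 0 :=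
    pow_ne_zero _ (mul_ne_zero (by exact_mod_cast Real.pi_ne_zero) Complex.I_ne_zero)
  have e : ip ^ w * (y / ((Real.pi : ℂ) * Complex.I) ^ w) = ((1 / 3 : ℚ) ^ w) • y := by
    have e2 : ip = ((1 / 3 : ℚ) : ℂ) * ((Real.pi : ℂ) * Complex.I) := by
      rw [ip]; push_cast; ring
    rw [e2, mul_pow, Rat.smul_def]
    push_cast
    field_simp
  rw [mem_D, e]
  constructor
  · intro h
    have h2 := (C w).smul_mem (((1 / 3 : ℚ) ^ w)⁻¹) h
    rwa [smul_smul, inv_mul_cancel₀ (by positivity), one_smul] at h2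
  · intro h
    exact (C w).smul_mem _ h

theorem C_zero : C 0 = ⊥ := by
  rw [C, Submodule.span_eq_bot]
  rintro y ⟨a, l, ha, _, hs, _⟩
  omega

theorem result :
    (∀ w : ℕ, FiniteDimensional ℚ (C w) ∧
      Module.finrank ℚ (C w) ≤ Module.finrank ℚ (C (w + 1))) ∧
    Module.finrank ℚ (C 1) = 1 ∧ Module.finrank ℚ (C 2) = 2 ∧
    ((∃ k : ℕ, 1 ≤ k ∧
        ∀ w : ℕ, 1 ≤ w → Module.finrank ℚ (C w) + 1 ≤ Module.finrank ℚ (C (w + k))) ∨
      (∀ w : ℕ, ∀ y ∈ C w, IsAlgebraic ℚ (y / (Real.pi : ℂ) ^ w)) ∧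
      (∀ k : ℕ, 1 ≤ k →
        IsAlgebraic ℚ (riemannZeta ((2 * k + 1 : ℕ) : ℂ) / (Real.pi : ℂ) ^ (2 * k + 1))) ∧
      ((∀ B : ℕ, ∃ w₀ : ℕ, ∀ w : ℕ, w₀ ≤ w → B ≤ Module.finrank ℚ (C w)) ∨
        ∃ (K : IntermediateField ℚ ℂ) (w₀ : ℕ), FiniteDimensional ℚ K ∧
          (∀ w : ℕ, w₀ ≤ w → ∀ y : ℂ, y ∈ C w ↔ y / ((Real.pi : ℂ) * Complex.I) ^ w ∈ K) ∧
          (∀ w : ℕ, ∀ y ∈ C w, y / ((Real.pi : ℂ) * Complex.I) ^ w ∈ K) ∧
          (∀ k : ℕ, 1 ≤ k → riemannZeta ((2 * k + 1 : ℕ) : ℂ) /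
            ((Real.pi : ℂ) * Complex.I) ^ (2 * k + 1) ∈ K))) := by
  refine ⟨fun w => ⟨fin_C w, C_mono w⟩, dim_one, dim_two, ?_⟩
  by_cases hall : ∀ k : ℕ, 1 ≤ k → ∀ y ∈ C k, IsAlgebraic ℚ (y / (Real.pi : ℂ) ^ k)
  · right
    refine ⟨?_, fun k hk => hall _ (by omega) _ (zeta_mem hk), ?_⟩
    · intro w y hy
      rcases Nat.eq_zero_or_pos w with rfl | hw
      · rw [C_zero, Submodule.mem_bot] at hy
        rw [hy, zero_div]
        exact isAlgebraic_zero
      · exact hall w hw y hy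
    rcases dichotomy with h | ⟨w₀, hw₀, hst⟩
    · left
      intro B
      obtain ⟨w₀, hw₀⟩ := h B
      exact ⟨w₀, fun w hw => hw₀.trans (monotone_nat_of_le_succ C_mono hw)⟩
    · right
      obtain ⟨K, hK, hKD⟩ := field_of_stable hw₀ hst
      have h1 : ∀ w : ℕ, w₀ ≤ w → ∀ y : ℂ, y ∈ C w ↔
          y / ((Real.pi : ℂ) * Complex.I) ^ w ∈ K := by
        intro w hw y
        rw [hKD, ← hst w hw, D_iff]
      have h2 : ∀ w : ℕ, ∀ y ∈ C w, y / ((Real.pi : ℂ) * Complex.I) ^ w ∈ K := by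
        intro w y hy
        rcases le_total w₀ w with hw | hw
        · exact (h1 w hw y).mp hy
        · rw [hKD]
          exact D_mono hw ((D_iff w y).mpr hy)
      exact ⟨K, w₀, hK, h1, h2, fun k hk => h2 _ _ (zeta_mem hk)⟩
  · left
    push Not at hall
    obtain ⟨k, hk, y, hy, ht⟩ := hall
    exact ⟨k, hk, fun w hw => linear_growth hk hy ht w hw⟩

end Pool.Agent.Results.MP_528be1_nt.ClausenGrowth
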