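import Mathlib
import Pool.Agent.TH883.Zg.Clau

/-!
# Algebraic relations between multiple Clausen values with one large argument have large height
-/

set_option autoImplicit false

namespace Pool.Agent.Results.MP_528be1_nt.ColouredRelationHeights

/-- alternating multiple harmonic sums: `harm [(a_1, ε_1), ..., (a_r, ε_r)] k` is the sum of
`∏ ε_i ^ (n_i) / n_i ^ (a_i)` over the integers `k > n_1 > n_2 > ... > n_r ≥ 1` (by recursion:
`n_1 = j` and `harm [(a_2, ε_2), ..., (a_r, ε_r)] j`) -/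
def harm : List (ℕ+ × ℤˣ) → ℕ → ℚ
  | [], _ => 1
  | x :: l, k => ∑ j ∈ Finset.Ico 1 k, ((x.2 : ℤ) : ℚ) ^ j * harm l j / (j : ℚ) ^ (x.1 : ℕ)

/-- the value `Li_{s, a_1, ..., a_r}(z, ε_1, ..., ε_r)` for `l = [(a_1, ε_1), ..., (a_r, ε_r)]`:
the sum over the largest index `k + 1` -/
noncomputable def li (z : ℂ) (s : ℕ) (l : List (ℕ+ × ℤˣ)) : ℂ :=
  ∑' k : ℕ, z ^ (k + 1) * ((harm l (k + 1) : ℚ) : ℂ) / ((k + 1 : ℕ) : ℂ) ^ s

/-- the number `ω = e ^ (π i / 3)` -/
noncomputable def om : ℂ := Complex.exp (Real.pi / 3 * Complex.I)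

open Pool.Agent.TH507.ZS Pool.Agent.TH507.HS in
/-- Let `z ≠ 1` be a complex number with `z ^ 6 = 1`, `Λ` a finite set of lists of pairs (positive
integer, sign), `h, d` natural numbers and `C` a real number. There are `B > 1` and `n0` such that for
all `n ≥ n0` and every nonzero polynomial `P` with integer coefficients in the variables
`X (i, l)` and `Y (i, l)`, `i ≤ h`, `l ∈ Λ`, of total degree at most `d` and with all coefficients at
most `C ^ n` in absolute value, the value of `P` at `X (i, l) = Re Li_{n + i, l}(z, ...)` and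
`Y (i, l) = Im Li_{n + i, l}(ω, ...) / √3` is larger than `B ^ (-n)` in absolute value. -/
theorem result (z : ℂ) (hz : z ^ 6 = 1) (_ : z ≠ 1) (Λ : Finset (List (ℕ+ × ℤˣ))) (h d : ℕ)
    (C : ℝ) :
    ∃ B : ℝ, 1 < B ∧ ∃ n0 : ℕ, ∀ n : ℕ, n0 ≤ n →
      ∀ P : MvPolynomial ((Fin (h + 1) × Λ) ⊕ (Fin (h + 1) × Λ)) ℤ, P ≠ 0 → P.totalDegree ≤ d →
      (∀ e, |((P.coeff e : ℤ) : ℝ)| ≤ C ^ n) →
      (B ^ n)⁻¹ < |MvPolynomial.aeval (Sum.elim
        (fun j : Fin (h + 1) × Λ => (li z (n + j.1) j.2).re)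
        (fun j : Fin (h + 1) × Λ => (li om (n + j.1) j.2).im / Real.sqrt 3)) P| := by
  have hh : ∀ l k, harm l k = hc l k := by
    intro l
    induction l with
    | nil => intro k; rw [harm, hc]
    | cons x l ih =>
      intro k
      rw [harm, hc]
      exact Finset.sum_congr rfl fun j _ => by rw [ih, sg]
  have hm : ∀ (y : ℂ) s l, li y s l = lic y s l := by
    intro y s l
    rw [li, lic]
    exact tsum_congr fun k => by rw [hh]
  simp only [hm]
  exact Pool.Agent.TH883.Zg.clau_alg z hz Λ h d C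

end Pool.Agent.Results.MP_528be1_nt.ColouredRelationHeights
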